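import Pool.Agent.MP_67b65f_an.RoomMain

open Pool.Agent.MP_67b65f_an

namespace Pool.Agent.Results.MP_67b65f_an.DarkDomain

/-- For every `n ≥ 2` there is a bounded domain `Ω ⊆ ℝⁿ` with smooth boundary such that for no
point `P ∈ Ω` the fronts from `P` become dense; more precisely, for every `P ∈ Ω` there is a
nonempty open `U ⊆ Ω` which is disjoint from all the fronts from `P`. -/
theorem result {n : ℕ} (hn : 2 ≤ n) :
    ∃ Ω : Set (E n), IsSmoothDomain Ω ∧ ∀ P ∈ Ω, ¬ FrontsBecomeDense Ω P ∧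
      ∃ U : Set (E n), IsOpen U ∧ U.Nonempty ∧ U ⊆ Ω ∧ ∀ T : ℝ, Disjoint (front Ω P T) U :=
  exists_dark_domain hn

end Pool.Agent.Results.MP_67b65f_an.DarkDomain
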