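import Pool.Agent.MP_67b65f_an.Symmetric

open Pool.Agent.MP_67b65f_an

namespace Pool.Agent.Results.MP_67b65f_an.Symmetric

/-- Let `n ≥ 2` and let `Ω ⊆ ℝⁿ` be a bounded domain with smooth boundary which is rotationally
symmetric about the point `c` (so `Ω` is a ball or a spherical shell about `c`). For `P ∈ Ω` the
fronts from `P` become dense in `Ω` as `t → ∞` if and only if `P` is not the centre `c`. -/
theorem result {n : ℕ} (hn : 2 ≤ n) {Ω : Set (E n)} (hΩ : IsSmoothDomain Ω) {c : E n}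
    (hsym : ∀ x ∈ Ω, ∀ y, dist y c = dist x c → y ∈ Ω) {P : E n} (hP : P ∈ Ω) :
    FrontsBecomeDense Ω P ↔ P ≠ c :=
  symmetric_domains hn hΩ hsym hP

end Pool.Agent.Results.MP_67b65f_an.Symmetric
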